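import Mathlib
import Pool.Agent.H645.SB
import Pool.Graph.R_seed8.W905.SM.Main
import Pool.Graph.R_seed8.Results.MP_38e082_lc.CohenNoFree

set_option autoImplicit false

/-!
# The relation `(λ⁺, λ⁺, λ) → (cf λ)⁺` for singular limits of measurable cardinals

Let `λ` be a singular limit of measurable cardinals `k i` with measures `D i`, `i < cf λ`, such
that for any `λ⁺` elements of the product of the `D i`, `λ⁺` of them have a lower bound modulo
bounded sets. Then `(λ⁺, λ⁺, λ) → ι` holds for all `ι < λ`. The hypothesis holds if the measures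
are normal, `2 ^ k i = (k i)⁺` and any `λ⁺` functions in the products of the `k i` and of the
`(k i)⁺` are bounded modulo bounded sets.
-/

universe u

namespace Pool.Agent.Results.MP_38e082_lc.LimitOfMeasurables

open Cardinal Pool.Agent.H645.SM Pool.Agent.Helper669.Forcing Pool.Agent.Helper669.Forcing2
  Pool.Agent.W905.SM

theorem result :
    (∀ (lam : Cardinal.{u}) (k : lam.ord.cof.ord.ToType → Cardinal.{u})
      (D : ∀ i, Ultrafilter (k i).ord.ToType), IsLimitOfMeasurables lam k D →
      Directed lam k D →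
      (∀ ι < lam, H645.SM.Arrow (Order.succ lam) (Order.succ lam) lam ι) ∧
      H645.SM.Arrow (Order.succ lam) (Order.succ lam) lam (Order.succ lam.ord.cof) ∧
      ((∀ μ : Cardinal.{u}, ℵ₀ ≤ μ → μ < lam.ord.cof → 2 ^ μ ≤ lam.ord.cof) →
        ∀ p : AddForcing lam.ord.cof (Order.succ lam).ord.ToType,
          p ∈ CardinalsPreserved.{u, u} (AddForcing lam.ord.cof (Order.succ lam).ord.ToType) ∧
          p ∈ fnot (W905.SM.Arrow (AddForcing lam.ord.cof (Order.succ lam).ord.ToType)
            (Order.succ lam) (Order.succ lam) lam (Order.succ lam.ord.cof)))) ∧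
    (∀ (lam : Cardinal.{u}) (k : lam.ord.cof.ord.ToType → Cardinal.{u})
      (D : ∀ i, Ultrafilter (k i).ord.ToType), IsLimitOfMeasurables lam k D →
      (∀ i, IsNormal (k i) (D i)) → (∀ i, (2 : Cardinal.{u}) ^ k i = Order.succ (k i)) →
      Bounded lam k → Bounded lam (fun i => Order.succ (k i)) → Directed lam k D) := by
  refine ⟨fun lam k D h hd => ?_, fun lam k D h hn hg hb1 hb2 =>
    directed_of_bounded h hn hg hb1 hb2⟩
  have hsucc : Order.succ lam.ord.cof < lam := by
    have hlim : ∀ ν < lam, (2 : Cardinal.{u}) ^ ν < lam := fun ν hν => h.strong hν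
    exact (Order.succ_le_of_lt (cantor _)).trans_lt (hlim _ h.singular.cof_ord_lt)
  refine ⟨fun ι hι => arrow_of_directed h hd hι, arrow_of_directed h hd hsucc, fun hpow p => ?_⟩
  have hneg := CohenNoFree.result lam h.singular hpow (Order.succ lam).ord.ToType
    (by rw [mk_ord_toType]) p
  exact ⟨hneg.1, hneg.2.2.1⟩

end Pool.Agent.Results.MP_38e082_lc.LimitOfMeasurables
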